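import Pool.Agent.W_68f289_h51m.Nm

/-!
All Hamiltonian homeomorphisms of the ball are hameomorphisms if and only if the hameomorphisms have
countable index, if and only if uniformly small Hamiltonian diffeomorphisms have small energy; if
they are not equal, then generic Hamiltonian homeomorphisms are not hameomorphisms.
-/

open Pool.Agent.W_MP_68f289_gt Pool.Agent.W_68f289_h51

namespace Pool.Agent.W_68f289_h51m.Old.EnergyCriterion1

/-- `HamBar n` is the group of compactly supported Hamiltonian homeomorphisms of the open unit ball
of `ℝ^{2n}`, `G n` is this group as a type, and `Hameo n` is its subgroup of hameomorphisms. They are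
equal if and only if the index of `Hameo n` in `HamBar n` is countable, and if and only if the energy
estimate `EnergyEst n` holds: for every `R < 1` there is `R' < 1` such that for every `δ > 0` there is
`ε > 0` such that all Hamiltonian diffeomorphisms supported in the closed ball of radius `R` which
move all points by less than `ε` are end points of topological Hamiltonian paths with support in the
closed ball of radius `R'`, of Hofer length at most `δ`, all of whose maps move all points by at most
`δ`. They are different if and only if there is `R₀ < 1` such that for all `R` between `R₀` and `1` the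
hameomorphisms form a meagre subset of the space `XR n R` of limits of Hamiltonian diffeomorphisms
of the closed ball of radius `R` (with the compact-open topology). If `n ≥ 1` and `HamBar n` is
simple, then they are equal. -/
theorem result (n : ℕ) :
    (Hameo n = HamBar n ↔ Countable (G n ⧸ (Hameo n).subgroupOf (HamBar n))) ∧
    (Hameo n = HamBar n ↔ EnergyEst n) ∧
    (Hameo n ≠ HamBar n ↔
      ∃ R₀ : ℝ, R₀ < 1 ∧ ∀ R : ℝ, R₀ < R → R < 1 → IsMeagre (HX n R)) ∧
    (1 ≤ n → IsSimpleGroup (G n) → Hameo n = HamBar n) := by
  obtain ⟨h1, h2, h3⟩ := energy_criterion n
  refine ⟨h1, h2, ?_, h3⟩
  rw [Ne, generic_criterion n]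
  push Not
  rfl

end Pool.Agent.W_68f289_h51m.Old.EnergyCriterion1
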